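import Pool.Agent.NPC.Dec

/-!
# No 2-approximation for restricted-edge violations in stable roommates

A polynomial-time `ρ`-approximation for the minimum number of violated restricted edges of a stable
matching, on solvable instances with `0 < |Q| < |M|`, gives a polynomial-time
`2 ρ / (ρ + 1)`-approximation for Vertex Cover.
-/

namespace Pool.Agent.Results.MP_f16758_lc.NoTwoApprox

open Pool.Agent.NPC

/-! ### Stable roommates with restricted edges -/

/-- An instance: the agents are the numbers below the length of the first list, which contains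
the preference list of each agent; then come the forbidden edges and the forced edges, each
edge being a pair `(u, v)` with `u < v`. -/
abbrev Inst := List (List ℕ) × (List (ℕ × ℕ) × List (ℕ × ℕ))

/-- The preference list of an agent, most preferred neighbour first. -/
def pref (I : Inst) (u : ℕ) : List ℕ := I.1.getD u []

/-- The forbidden edges. -/
def forbidden (I : Inst) : List (ℕ × ℕ) := I.2.1

/-- The forced edges. -/
def forced (I : Inst) : List (ℕ × ℕ) := I.2.2

/-- The pair `e` is an edge of the graph, written with its smaller endpoint first. -/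
def IsEdge (I : Inst) (e : ℕ × ℕ) : Prop := e.1 < e.2 ∧ e.2 ∈ pref I e.1

/-- An instance is valid when no preference list has repetitions, contains its owner or a
non-agent, acceptability is symmetric, and forbidden and forced edges are disjoint sets
of edges. -/
def Valid (I : Inst) : Prop :=
  (∀ u, (pref I u).Nodup ∧ ∀ v ∈ pref I u, v ≠ u ∧ v < I.1.length ∧ u ∈ pref I v) ∧
    (∀ e ∈ forbidden I, IsEdge I e) ∧ (∀ e ∈ forced I, IsEdge I e) ∧
    (forbidden I).Nodup ∧ (forced I).Nodup ∧ ∀ e ∈ forbidden I, e ∉ forced I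

/-- `u` and `v` are partners in the set of edges `M`. -/
def Mat (M : Finset (ℕ × ℕ)) (u v : ℕ) : Prop := (u, v) ∈ M ∨ (v, u) ∈ M

/-- `M` is a matching of the graph. -/
def IsMatching (I : Inst) (M : Finset (ℕ × ℕ)) : Prop :=
  (∀ e ∈ M, IsEdge I e) ∧ ∀ u v w, Mat M u v → Mat M u w → v = w

/-- `u` is unmatched in `M` or prefers `v` to its partner. -/
def Prefers (I : Inst) (M : Finset (ℕ × ℕ)) (u v : ℕ) : Prop :=
  ∀ w, Mat M u w → (pref I u).idxOf v < (pref I u).idxOf w

/-- The edge `uv` blocks `M`. -/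
def Blocks (I : Inst) (M : Finset (ℕ × ℕ)) (u v : ℕ) : Prop :=
  v ∈ pref I u ∧ ¬ Mat M u v ∧ Prefers I M u v ∧ Prefers I M v u

/-- `M` is a stable matching. -/
def Stable (I : Inst) (M : Finset (ℕ × ℕ)) : Prop := IsMatching I M ∧ ∀ u v, ¬ Blocks I M u v

/-- The number of violated constraints. -/
def cost (I : Inst) (M : Finset (ℕ × ℕ)) : ℕ :=
  ((forbidden I).toFinset ∩ M).card + ((forced I).toFinset \ M).card

/-- The class of instances of the question: there is a stable matching, and `0 < |Q| < |M|`. -/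
def InClass (I : Inst) : Prop :=
  Valid I ∧ (∃ M, Stable I M) ∧ 0 < (forced I).length ∧
    ∀ M, Stable I M → (forced I).length < M.card

/-- The function `A` is computed in polynomial time (on binary encodings, by a Turing machine). -/
def PolyTimeFun {α β : Type} [TEnc α] [TEnc β] (A : α → β) : Prop :=
  ∃ F : List Bool → List Bool, PolyTime F ∧ ∀ a, F (bits a) = bits (A a)

/-- There is a polynomial-time `ρ`-approximation on the class. -/
def HasApprox (ρ : ℝ) : Prop :=
  ∃ A : Inst → List (ℕ × ℕ), PolyTimeFun A ∧ ∀ I, InClass I →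
    Stable I (A I).toFinset ∧ ∀ M, Stable I M → (cost I (A I).toFinset : ℝ) ≤ ρ * cost I M

/-! ### Vertex Cover -/

/-- A graph: the vertices, and the edges `(u, v)`, `u < v`. -/
abbrev GInst := List ℕ × List (ℕ × ℕ)

/-- Valid graphs: no repetitions, and edges join vertices. -/
def GValid (J : GInst) : Prop :=
  J.1.Nodup ∧ J.2.Nodup ∧ ∀ e ∈ J.2, e.1 ∈ J.1 ∧ e.2 ∈ J.1 ∧ e.1 < e.2

/-- `T` is a vertex cover. -/
def IsCover (J : GInst) (T : Finset ℕ) : Prop :=
  (∀ v ∈ T, v ∈ J.1) ∧ ∀ e ∈ J.2, e.1 ∈ T ∨ e.2 ∈ T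

/-- Vertex Cover has a polynomial-time `c`-approximation. -/
def VCApprox (c : ℝ) : Prop :=
  ∃ A : GInst → List ℕ, PolyTimeFun A ∧ ∀ J, GValid J →
    IsCover J (A J).toFinset ∧ ∀ T, IsCover J T → ((A J).toFinset.card : ℝ) ≤ c * T.card

/-! ### The gadgets -/

/-- First choice. -/
def X (p : ℕ) : ℕ :=
  6 * (p / 6) + (if p % 6 < 3 then p % 6 + 3 else (p + 1) % 3)

/-- Second choice. -/
def Y (p : ℕ) : ℕ :=
  6 * (p / 6) + (if p % 6 < 3 then (p + 1) % 3 + 3 else (p + 2) % 3)

/-- Last choice. -/
def Z (p : ℕ) : ℕ :=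
  6 * (p / 6) + (if p % 6 < 3 then (p + 2) % 3 + 3 else p % 3)

theorem six (p : ℕ) : ∃ g r, p = 6 * g + r ∧ r < 6 := ⟨p / 6, p % 6, by omega, by omega⟩

theorem YY (p : ℕ) : Y (Y p) = p := by
  unfold Y; split_ifs <;> omega

theorem XZ (p : ℕ) : X (Z p) = p := by
  unfold X Z; split_ifs <;> omega

theorem ZX (p : ℕ) : Z (X p) = p := by
  unfold X Z; split_ifs <;> omega

theorem X_div (p : ℕ) : X p / 6 = p / 6 := by
  unfold X; split_ifs <;> omega

theorem Y_div (p : ℕ) : Y p / 6 = p / 6 := by
  unfold Y; split_ifs <;> omega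

theorem Z_div (p : ℕ) : Z p / 6 = p / 6 := by
  unfold Z; split_ifs <;> omega

theorem XY_ne (p : ℕ) : X p ≠ Y p := by
  unfold X Y; split_ifs <;> omega

theorem XZ_ne (p : ℕ) : X p ≠ Z p := by
  unfold X Z; split_ifs <;> omega

theorem YZ_ne (p : ℕ) : Y p ≠ Z p := by
  unfold Y Z; split_ifs <;> omega

theorem X_ne (p : ℕ) : X p ≠ p := by
  unfold X; split_ifs <;> omega

theorem Y_ne (p : ℕ) : Y p ≠ p := by
  unfold Y; split_ifs <;> omega

theorem Z_ne (p : ℕ) : Z p ≠ p := by
  unfold Z; split_ifs <;> omega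

theorem XX_ne (p : ℕ) : X (X p) ≠ p := by
  unfold X; split_ifs <;> omega

theorem XX_ne' (p : ℕ) : X (X p) ≠ Z (X p) := XZ_ne _

/-- The instance consists of `G` gadgets with coupling lists `c`, and one more pair. -/
structure Sys (I : Inst) (G : ℕ) (c : ℕ → List ℕ) : Prop where
  len : I.1.length = 6 * G + 2
  pr : ∀ p < 6 * G, pref I p = X p :: Y p :: (c p ++ [Z p])
  pr1 : pref I (6 * G) = [6 * G + 1]
  pr2 : pref I (6 * G + 1) = [6 * G]
  csym : ∀ p < 6 * G, ∀ q ∈ c p, q < 6 * G ∧ p ∈ c q ∧ q / 6 ≠ p / 6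
  cnd : ∀ p < 6 * G, (c p).Nodup

section Sys

variable {I : Inst} {G : ℕ} {c : ℕ → List ℕ}

theorem X_lt {p : ℕ} (hp : p < 6 * G) : X p < 6 * G := by
  have := X_div p
  omega

theorem Y_lt {p : ℕ} (hp : p < 6 * G) : Y p < 6 * G := by
  have := Y_div p
  omega

theorem Z_lt {p : ℕ} (hp : p < 6 * G) : Z p < 6 * G := by
  have := Z_div p
  omega

theorem Sys.mem (h : Sys I G c) {p v : ℕ} (hp : p < 6 * G) :
    v ∈ pref I p ↔ v = X p ∨ v = Y p ∨ v ∈ c p ∨ v = Z p := by
  rw [h.pr p hp]
  simp

theorem Sys.idxX (h : Sys I G c) {p : ℕ} (hp : p < 6 * G) : (pref I p).idxOf (X p) = 0 := by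
  rw [h.pr p hp]
  simp

theorem Sys.idxY (h : Sys I G c) {p : ℕ} (hp : p < 6 * G) : (pref I p).idxOf (Y p) = 1 := by
  rw [h.pr p hp, List.idxOf_cons_ne _ (XY_ne p)]
  simp

theorem Sys.idx2 (h : Sys I G c) {p v : ℕ} (hp : p < 6 * G) (h1 : v ≠ X p) (h2 : v ≠ Y p) :
    (pref I p).idxOf v = (c p ++ [Z p]).idxOf v + 2 := by
  rw [h.pr p hp, List.idxOf_cons_ne _ (Ne.symm h1), List.idxOf_cons_ne _ (Ne.symm h2)]

theorem Sys.Znc (h : Sys I G c) {p : ℕ} (hp : p < 6 * G) : Z p ∉ c p := by
  intro h1
  exact (h.csym p hp _ h1).2.2 (Z_div p)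

theorem Sys.Xnc (h : Sys I G c) {p : ℕ} (hp : p < 6 * G) : X p ∉ c p := by
  intro h1
  exact (h.csym p hp _ h1).2.2 (X_div p)

theorem Sys.Ync (h : Sys I G c) {p : ℕ} (hp : p < 6 * G) : Y p ∉ c p := by
  intro h1
  exact (h.csym p hp _ h1).2.2 (Y_div p)

theorem Sys.idxZ (h : Sys I G c) {p : ℕ} (hp : p < 6 * G) :
    (pref I p).idxOf (Z p) = (c p).length + 2 := by
  rw [h.idx2 hp (XZ_ne p).symm (YZ_ne p).symm, List.idxOf_append_of_notMem (h.Znc hp)]
  simp

theorem Sys.idxc (h : Sys I G c) {p v : ℕ} (hp : p < 6 * G) (hv : v ∈ c p) :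
    2 ≤ (pref I p).idxOf v ∧ (pref I p).idxOf v < (c p).length + 2 := by
  have h1 : v ≠ X p := by
    rintro rfl
    exact h.Xnc hp hv
  have h2 : v ≠ Y p := by
    rintro rfl
    exact h.Ync hp hv
  rw [h.idx2 hp h1 h2, List.idxOf_append_of_mem hv]
  have := List.idxOf_lt_length_of_mem hv
  omega

theorem Sys.idx_le (h : Sys I G c) {p v : ℕ} (hp : p < 6 * G) (hv : v ∈ pref I p) :
    (pref I p).idxOf v ≤ (pref I p).idxOf (Z p) := by
  rw [h.idxZ hp]
  rcases (h.mem hp).1 hv with rfl | rfl | hv | rfl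
  · rw [h.idxX hp]; omega
  · rw [h.idxY hp]; omega
  · exact (h.idxc hp hv).2.le
  · rw [h.idxZ hp]

theorem Sys.valid_agents (h : Sys I G c) :
    ∀ u, (pref I u).Nodup ∧ ∀ v ∈ pref I u, v ≠ u ∧ v < I.1.length ∧ u ∈ pref I v := by
  intro u
  rw [h.len]
  rcases lt_or_ge u (6 * G) with hu | hu
  · constructor
    · rw [h.pr u hu]
      simp only [List.nodup_cons, List.mem_cons, List.mem_append, List.nodup_append,
        List.not_mem_nil, or_false, not_or]
      refine ⟨⟨XY_ne u, h.Xnc hu, XZ_ne u⟩, ⟨h.Ync hu, YZ_ne u⟩, h.cnd u hu, ?_, ?_⟩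
      · simp
      · rintro a ha b rfl
        rintro rfl
        exact h.Znc hu ha
    · intro v hv
      rcases (h.mem hu).1 hv with rfl | rfl | hv | rfl
      · refine ⟨X_ne u, by have := X_lt hu; omega, ?_⟩
        rw [h.mem (X_lt hu), ZX]
        exact Or.inr (Or.inr (Or.inr rfl))
      · refine ⟨Y_ne u, by have := Y_lt hu; omega, ?_⟩
        rw [h.mem (Y_lt hu), YY]
        exact Or.inr (Or.inl rfl)
      · obtain ⟨h1, h2, h3⟩ := h.csym u hu v hv
        refine ⟨fun h4 => h3 (by rw [h4]), by omega, ?_⟩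
        rw [h.mem h1]
        exact Or.inr (Or.inr (Or.inl h2))
      · refine ⟨Z_ne u, by have := Z_lt hu; omega, ?_⟩
        rw [h.mem (Z_lt hu), XZ]
        exact Or.inl rfl
  · rcases eq_or_lt_of_le hu with rfl | hu
    · rw [h.pr1]
      simp only [List.nodup_cons, List.not_mem_nil, not_false_eq_true, List.nodup_nil, and_self,
        List.mem_cons, or_false, forall_eq, true_and]
      rw [h.pr2]
      simp
    · rcases eq_or_lt_of_le (Nat.succ_le_of_lt hu) with hu | hu
      · rw [← hu, h.pr2]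
        simp only [List.nodup_cons, List.not_mem_nil, not_false_eq_true, List.nodup_nil, and_self,
          List.mem_cons, or_false, forall_eq, true_and]
        rw [h.pr1]
        simp
      · have : pref I u = [] := by
          unfold pref
          rw [List.getD_eq_default]
          rw [h.len]
          omega
        rw [this]
        simp

/-! ### Stable matchings of the gadgets -/

variable {M : Finset (ℕ × ℕ)}

theorem Mat.symm {u v : ℕ} (h : Mat M u v) : Mat M v u := Or.symm h

theorem Stable.uniq (hM : Stable I M) {u v w : ℕ} (h1 : Mat M u v) (h2 : Mat M u w) : v = w :=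
  hM.1.2 u v w h1 h2

theorem Sys.mat_mem (h : Sys I G c) (hM : Stable I M) {u v : ℕ} (h1 : Mat M u v) :
    v ∈ pref I u := by
  rcases h1 with h1 | h1
  · exact (hM.1.1 _ h1).2
  · exact ((h.valid_agents v).2 u (hM.1.1 _ h1).2).2.2

/-- Whoever has neither the first nor the second choice: the second choice has its first
choice. -/
theorem Sys.bad (h : Sys I G c) (hM : Stable I M) {u : ℕ} (hu : u < 6 * G)
    (h1 : ¬ Mat M u (X u)) (h2 : ¬ Mat M u (Y u)) : Mat M (Y u) (X (Y u)) := by
  by_contra h3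
  refine hM.2 u (Y u) ⟨?_, h2, ?_, ?_⟩
  · rw [h.mem hu]
    exact Or.inr (Or.inl rfl)
  · intro w hw
    have hwm := h.mat_mem hM hw
    rw [h.idxY hu]
    have hX : w ≠ X u := by rintro rfl; exact h1 hw
    have hY : w ≠ Y u := by rintro rfl; exact h2 hw
    rw [h.idx2 hu hX hY]
    omega
  · intro w hw
    have hwm := h.mat_mem hM hw
    have hYu := Y_lt hu
    have e1 : (pref I (Y u)).idxOf u = 1 := by
      have := h.idxY hYu
      rwa [YY] at this
    rw [e1]
    have hX : w ≠ X (Y u) := by rintro rfl; exact h3 hw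
    have hY : w ≠ Y (Y u) := by
      rintro rfl
      rw [YY] at hw
      exact h2 hw.symm
    rw [h.idx2 hYu hX hY]
    omega

/-- In a stable matching every gadget agent has its first, second or last choice. -/
theorem Sys.bad2 (h : Sys I G c) (hM : Stable I M) {u : ℕ} (hu : u < 6 * G)
    (h1 : ¬ Mat M u (X u)) (h2 : ¬ Mat M u (Y u)) : Mat M u (Z u) := by
  classical
  set Dp := (Finset.range (6 * G)).filter (fun u => Mat M u (X u)) with hDp
  set Dm := (Finset.range (6 * G)).filter (fun u => ¬ Mat M u (X u) ∧ ¬ Mat M u (Y u)) with hDm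
  have hXinj : Function.Injective X := Function.LeftInverse.injective ZX
  have hYinj : Function.Injective Y := Function.LeftInverse.injective YY
  have hc1 : Dm.card ≤ Dp.card := by
    refine Finset.card_le_card_of_injOn Y ?_ hYinj.injOn
    intro u hu
    have hu' := Finset.mem_filter.1 (Finset.mem_coe.1 hu)
    have hlt := Finset.mem_range.1 hu'.1
    refine Finset.mem_coe.2 (Finset.mem_filter.2 ⟨Finset.mem_range.2 (Y_lt hlt), ?_⟩)
    exact h.bad hM hlt hu'.2.1 hu'.2.2
  have hsub : Dp.image X ⊆ Dm := by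
    intro v hv
    obtain ⟨w, hw, rfl⟩ := Finset.mem_image.1 hv
    have hw' := Finset.mem_filter.1 hw
    have hlt := Finset.mem_range.1 hw'.1
    refine Finset.mem_filter.2 ⟨Finset.mem_range.2 (X_lt hlt), ?_, ?_⟩
    · intro h4
      exact XX_ne w (hM.uniq h4 hw'.2.symm)
    · intro h4
      have := hM.uniq h4 hw'.2.symm
      have h5 := YZ_ne (X w)
      rw [ZX] at h5
      exact h5 this
  have heq : Dp.image X = Dm := Finset.eq_of_subset_of_card_le hsub (by
    rw [Finset.card_image_of_injective _ hXinj]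
    exact hc1)
  have hmem : u ∈ Dm := Finset.mem_filter.2 ⟨Finset.mem_range.2 hu, h1, h2⟩
  rw [← heq] at hmem
  obtain ⟨w, hw, rfl⟩ := Finset.mem_image.1 hmem
  rw [ZX]
  exact (Finset.mem_filter.1 hw).2.symm

theorem Sys.tri (h : Sys I G c) (hM : Stable I M) {u : ℕ} (hu : u < 6 * G) :
    Mat M u (X u) ∨ Mat M u (Y u) ∨ Mat M u (Z u) := by
  by_cases h1 : Mat M u (X u)
  · exact Or.inl h1
  · by_cases h2 : Mat M u (Y u)
    · exact Or.inr (Or.inl h2)
    · exact Or.inr (Or.inr (h.bad2 hM hu h1 h2))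

/-- Coupled agents do not both have their last choices. -/
theorem Sys.coupled (h : Sys I G c) (hM : Stable I M) {u v : ℕ} (hu : u < 6 * G)
    (hv : v ∈ c u) (h1 : Mat M u (Z u)) (h2 : Mat M v (Z v)) : False := by
  obtain ⟨h3, h4, h5⟩ := h.csym u hu v hv
  refine hM.2 u v ⟨?_, ?_, ?_, ?_⟩
  · rw [h.mem hu]
    exact Or.inr (Or.inr (Or.inl hv))
  · intro h6
    have := hM.uniq h6 h1
    rw [this] at hv
    exact h.Znc hu hv
  · intro w hw
    rw [← hM.uniq h1 hw, h.idxZ hu]
    exact (h.idxc hu hv).2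
  · intro w hw
    rw [← hM.uniq h2 hw, h.idxZ h3]
    exact (h.idxc h3 h4).2

/-- The last pair is matched. -/
theorem Sys.last (h : Sys I G c) (hM : Stable I M) : (6 * G, 6 * G + 1) ∈ M := by
  have key : Mat M (6 * G) (6 * G + 1) := by
    by_contra h1
    have hA : ∀ w, ¬ Mat M (6 * G) w := by
      intro w hw
      have := h.mat_mem hM hw
      rw [h.pr1, List.mem_singleton] at this
      rw [this] at hw
      exact h1 hw
    have hB : ∀ w, ¬ Mat M (6 * G + 1) w := by
      intro w hw
      have := h.mat_mem hM hw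
      rw [h.pr2, List.mem_singleton] at this
      rw [this] at hw
      exact h1 hw.symm
    refine hM.2 (6 * G) (6 * G + 1) ⟨?_, h1, fun w hw => absurd hw (hA w),
      fun w hw => absurd hw (hB w)⟩
    rw [h.pr1]
    exact List.mem_singleton.2 rfl
  rcases key with h1 | h1
  · exact h1
  · have := (hM.1.1 _ h1).1
    simp at this

theorem mat_lt (hM : Stable I M) {u v : ℕ} (huv : u < v) (h1 : Mat M u v) :
    (u, v) ∈ M := by
  rcases h1 with h1 | h1
  · exact h1
  · have := (hM.1.1 _ h1).1
    simp only at this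
    omega

/-! ### Matchings from gadget states -/

/-- The partner of `p` when gadget `g` is in state `st g`. -/
def tt (st : ℕ → ℕ) (p : ℕ) : ℕ :=
  if st (p / 6) = 1 then Y p else if (p % 6 < 3 ↔ st (p / 6) = 0) then X p else Z p

/-- The matching with gadget states `st`. -/
def mst (G : ℕ) (st : ℕ → ℕ) : Finset (ℕ × ℕ) :=
  insert (6 * G, 6 * G + 1)
    (((Finset.range (6 * G)).filter (fun p => p < tt st p)).image (fun p => (p, tt st p)))

theorem tt_div (st : ℕ → ℕ) (p : ℕ) : tt st p / 6 = p / 6 := by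
  unfold tt
  split_ifs
  · exact Y_div p
  · exact X_div p
  · exact Z_div p

theorem tt_lt (st : ℕ → ℕ) {p : ℕ} (hp : p < 6 * G) : tt st p < 6 * G := by
  have := tt_div st p
  omega

theorem X_side (p : ℕ) : X p % 6 < 3 ↔ ¬ p % 6 < 3 := by
  unfold X; split_ifs <;> omega

theorem Y_side (p : ℕ) : Y p % 6 < 3 ↔ ¬ p % 6 < 3 := by
  unfold Y; split_ifs <;> omega

theorem Z_side (p : ℕ) : Z p % 6 < 3 ↔ ¬ p % 6 < 3 := by
  unfold Z; split_ifs <;> omega

theorem tt_tt (st : ℕ → ℕ) (p : ℕ) : tt st (tt st p) = p := by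
  by_cases h1 : st (p / 6) = 1
  · have e : tt st p = Y p := by unfold tt; rw [if_pos h1]
    rw [e]
    unfold tt
    rw [Y_div, if_pos h1, YY]
  · by_cases h2 : (p % 6 < 3 ↔ st (p / 6) = 0)
    · have e : tt st p = X p := by unfold tt; rw [if_neg h1, if_pos h2]
      rw [e]
      unfold tt
      rw [X_div, if_neg h1, if_neg, ZX]
      rw [X_side]
      tauto
    · have e : tt st p = Z p := by unfold tt; rw [if_neg h1, if_neg h2]
      rw [e]
      unfold tt
      rw [Z_div, if_neg h1, if_pos, XZ]
      rw [Z_side]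
      tauto

theorem tt_ne (st : ℕ → ℕ) (p : ℕ) : tt st p ≠ p := by
  unfold tt
  split_ifs
  · exact Y_ne p
  · exact X_ne p
  · exact Z_ne p

theorem mem_mst {st : ℕ → ℕ} {u v : ℕ} : (u, v) ∈ mst G st ↔
    (u = 6 * G ∧ v = 6 * G + 1) ∨ (u < 6 * G ∧ u < v ∧ v = tt st u) := by
  unfold mst
  simp only [Finset.mem_insert, Prod.mk.injEq, Finset.mem_image, Finset.mem_filter,
    Finset.mem_range]
  constructor
  · rintro (h | ⟨p, ⟨h1, h2⟩, rfl, rfl⟩)
    · exact Or.inl h
    · exact Or.inr ⟨h1, h2, rfl⟩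
  · rintro (h | ⟨h1, h2, rfl⟩)
    · exact Or.inl h
    · exact Or.inr ⟨u, ⟨h1, h2⟩, rfl, rfl⟩

theorem mat_mst {st : ℕ → ℕ} {u v : ℕ} : Mat (mst G st) u v ↔
    (u < 6 * G ∧ v = tt st u) ∨ (u = 6 * G ∧ v = 6 * G + 1) ∨ (u = 6 * G + 1 ∧ v = 6 * G) := by
  unfold Mat
  rw [mem_mst, mem_mst]
  constructor
  · rintro ((⟨h1, h2⟩ | ⟨h1, _, h2⟩) | (⟨h1, h2⟩ | ⟨h1, _, h2⟩))
    · exact Or.inr (Or.inl ⟨h1, h2⟩)
    · exact Or.inl ⟨h1, h2⟩
    · exact Or.inr (Or.inr ⟨h2, h1⟩)
    · refine Or.inl ⟨?_, ?_⟩
      · rw [h2]; exact tt_lt st h1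
      · rw [h2, tt_tt]
  · rintro (⟨h1, h2⟩ | ⟨h1, h2⟩ | ⟨h1, h2⟩)
    · rcases lt_trichotomy u v with h3 | h3 | h3
      · exact Or.inl (Or.inr ⟨h1, h3, h2⟩)
      · exact absurd (h3.trans h2).symm (tt_ne st u)
      · refine Or.inr (Or.inr ⟨?_, h3, ?_⟩)
        · rw [h2]; exact tt_lt st h1
        · rw [h2, tt_tt]
    · exact Or.inl (Or.inl ⟨h1, h2⟩)
    · exact Or.inr (Or.inl ⟨h2, h1⟩)

theorem Sys.stable_mst (h : Sys I G c) {st : ℕ → ℕ}
    (hc : ∀ p < 6 * G, ∀ q ∈ c p, tt st p = Z p → tt st q ≠ Z q) : Stable I (mst G st) := by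
  have htm : ∀ p < 6 * G, tt st p ∈ pref I p := by
    intro p hp
    rw [h.mem hp]
    unfold tt
    split_ifs
    · exact Or.inr (Or.inl rfl)
    · exact Or.inl rfl
    · exact Or.inr (Or.inr (Or.inr rfl))
  refine ⟨⟨?_, ?_⟩, ?_⟩
  · rintro ⟨u, v⟩ he
    rcases mem_mst.1 he with ⟨rfl, rfl⟩ | ⟨h1, h2, h3⟩
    · refine ⟨by simp, ?_⟩
      change 6 * G + 1 ∈ pref I (6 * G)
      rw [h.pr1]
      exact List.mem_singleton.2 rfl
    · refine ⟨h2, ?_⟩
      change v ∈ pref I u
      rw [h3]
      exact htm u h1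
  · intro u v w h1 h2
    rw [mat_mst] at h1 h2
    omega
  · rintro u v ⟨h1, h2, h3, h4⟩
    rcases lt_or_ge u (6 * G) with hu | hu
    · -- `v` is also a gadget agent
      have hv : v < 6 * G := by
        rcases (h.mem hu).1 h1 with rfl | rfl | h5 | rfl
        · exact X_lt hu
        · exact Y_lt hu
        · exact (h.csym u hu v h5).1
        · exact Z_lt hu
      have h5 := h3 (tt st u) (mat_mst.2 (Or.inl ⟨hu, rfl⟩))
      have h6 := h4 (tt st v) (mat_mst.2 (Or.inl ⟨hv, rfl⟩))
      have h7 := h.idx_le hu (htm u hu)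
      have h8 := h.idx_le hv (htm v hv)
      have hZ : ∀ p < 6 * G, 1 < (pref I p).idxOf (tt st p) → tt st p = Z p := by
        intro p hp h9
        unfold tt at h9 ⊢
        split_ifs at h9 ⊢ with e1 e2
        · rw [h.idxY hp] at h9; omega
        · rw [h.idxX hp] at h9; omega
        · rfl
      rcases (h.mem hu).1 h1 with rfl | rfl | h9 | rfl
      · have := h.idxZ hv
        rw [ZX] at this
        rw [h.idxZ hv] at h8
        omega
      · rw [h.idxY hu] at h5
        have e1 := h.idxY hv
        rw [YY] at e1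
        rw [e1] at h6
        have z1 := hZ u hu h5
        have z2 := hZ _ hv h6
        have y1 : st (u / 6) ≠ 1 := by
          intro e
          unfold tt at z1
          rw [if_pos e] at z1
          exact YZ_ne _ z1
        have y2 : ¬ (u % 6 < 3 ↔ st (u / 6) = 0) := by
          intro e
          unfold tt at z1
          rw [if_neg y1, if_pos e] at z1
          exact XZ_ne _ z1
        unfold tt at z2
        rw [Y_div, if_neg y1] at z2
        by_cases e : (Y u % 6 < 3 ↔ st (u / 6) = 0)
        · rw [if_pos e] at z2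
          exact XZ_ne _ z2
        · rw [Y_side] at e
          tauto
      · obtain ⟨h10, h11, _⟩ := h.csym u hu v h9
        have e1 := (h.idxc hu h9).1
        have e2 := (h.idxc hv h11).1
        exact hc u hu v h9 (hZ u hu (by omega)) (hZ v hv (by omega))
      · omega
    · have hcase : (u = 6 * G ∧ v = 6 * G + 1) ∨ (u = 6 * G + 1 ∧ v = 6 * G) := by
        rcases eq_or_lt_of_le hu with rfl | hu
        · rw [h.pr1, List.mem_singleton] at h1
          exact Or.inl ⟨rfl, h1⟩
        · rcases eq_or_lt_of_le (Nat.succ_le_of_lt hu) with hu | hu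
          · rw [← hu, h.pr2, List.mem_singleton] at h1
            exact Or.inr ⟨hu.symm, h1⟩
          · have : pref I u = [] := by
              unfold pref
              rw [List.getD_eq_default]
              rw [h.len]
              omega
            rw [this] at h1
            simp at h1
      exact h2 (mat_mst.2 (Or.inr hcase))

end Sys

/-! ### General facts on lists -/

theorem countP_range (n : ℕ) (p : ℕ → Bool) :
    (List.range n).countP p = ∑ g ∈ Finset.range n, if p g = true then 1 else 0 := by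
  rw [← Finset.card_filter, List.countP_eq_length_filter]
  have : ((Finset.range n).filter (fun i => p i = true)).card =
      ((List.range n).filter (fun i => decide (p i = true))).length := rfl
  rw [this]
  simp

theorem countP_mem_le {l : List ℕ} (hl : l.Nodup) (T : Finset ℕ) :
    l.countP (fun v => decide (v ∈ T)) ≤ T.card := by
  rw [List.countP_eq_length_filter, ← List.toFinset_card_of_nodup (hl.filter _)]
  refine Finset.card_le_card fun v hv => ?_
  rw [List.mem_toFinset, List.mem_filter] at hv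
  simpa using hv.2

theorem card_inter_eq {l : List (ℕ × ℕ)} (hl : l.Nodup) (M : Finset (ℕ × ℕ)) :
    (l.toFinset ∩ M).card = l.countP (fun e => decide (e ∈ M)) := by
  rw [List.countP_eq_length_filter, ← List.toFinset_card_of_nodup (hl.filter _)]
  congr 1
  ext e
  simp

theorem map_range_getD {α : Type} (l : List α) (d : α) :
    (List.range l.length).map (fun g => l.getD g d) = l := by
  refine List.ext_getElem (by simp) ?_
  intro i h1 h2
  simp [List.getElem?_eq_getElem h2]

theorem sum_getD {α : Type} (l : List α) (d : α) (f : α → ℕ) :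
    ∑ g ∈ Finset.range l.length, f (l.getD g d) = (l.map f).sum := by
  conv_rhs => rw [← map_range_getD l d, List.map_map]
  rw [Finset.sum_eq_multiset_sum]
  rfl

/-! ### A greedy matching -/

/-- The endpoints of a list of edges. -/
def flat (M : List (ℕ × ℕ)) : List ℕ := M.flatMap (fun e => [e.1, e.2])

/-- One step of the greedy algorithm. -/
def step (M : List (ℕ × ℕ)) (e : ℕ × ℕ) : List (ℕ × ℕ) :=
  if decide (e.1 ∈ flat M) || decide (e.2 ∈ flat M) then M else e :: M

/-- The greedy matching. -/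
def greedy (E : List (ℕ × ℕ)) : List (ℕ × ℕ) := E.foldl step []

theorem mem_flat {M : List (ℕ × ℕ)} {v : ℕ} : v ∈ flat M ↔ ∃ e ∈ M, v = e.1 ∨ v = e.2 := by
  simp [flat]

theorem length_flat (M : List (ℕ × ℕ)) : (flat M).length = 2 * M.length := by
  induction M with
  | nil => rfl
  | cons e M ih =>
    have : flat (e :: M) = e.1 :: e.2 :: flat M := rfl
    rw [this]
    simp only [List.length_cons, ih]
    omega

theorem step_sub {M : List (ℕ × ℕ)} {e f : ℕ × ℕ} (h : f ∈ step M e) : f ∈ M ∨ f = e := by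
  unfold step at h
  split_ifs at h
  · exact Or.inl h
  · rw [List.mem_cons] at h
    tauto

theorem step_mono {M : List (ℕ × ℕ)} {e f : ℕ × ℕ} (h : f ∈ M) : f ∈ step M e := by
  unfold step
  split_ifs
  · exact h
  · exact List.mem_cons_of_mem _ h

theorem foldl_mono (E : List (ℕ × ℕ)) : ∀ (M : List (ℕ × ℕ)) {f : ℕ × ℕ}, f ∈ M →
    f ∈ E.foldl step M := by
  induction E with
  | nil => intro M f h; exact h
  | cons e E ih => intro M f h; exact ih _ (step_mono h)

theorem foldl_sub (E : List (ℕ × ℕ)) : ∀ (M : List (ℕ × ℕ)) {f : ℕ × ℕ}, f ∈ E.foldl step M →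
    f ∈ M ∨ f ∈ E := by
  induction E with
  | nil => intro M f h; exact Or.inl h
  | cons e E ih =>
    intro M f h
    rcases ih _ h with h | h
    · rcases step_sub h with h | h
      · exact Or.inl h
      · exact Or.inr (by rw [h]; exact List.mem_cons_self)
    · exact Or.inr (List.mem_cons_of_mem _ h)

theorem foldl_nodup (E : List (ℕ × ℕ)) (hE : ∀ e ∈ E, e.1 ≠ e.2) : ∀ (M : List (ℕ × ℕ)),
    (flat M).Nodup → (flat (E.foldl step M)).Nodup := by
  induction E with
  | nil => intro M h; exact h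
  | cons e E ih =>
    intro M h
    refine ih (fun f hf => hE f (List.mem_cons_of_mem _ hf)) _ ?_
    unfold step
    split_ifs with h1
    · exact h
    · have : flat (e :: M) = e.1 :: e.2 :: flat M := rfl
      rw [this]
      simp only [Bool.or_eq_true, decide_eq_true_eq, not_or] at h1
      have h2 := hE e List.mem_cons_self
      simp only [List.nodup_cons, List.mem_cons, not_or]
      exact ⟨⟨h2, h1.1⟩, h1.2, h⟩

theorem foldl_max (E : List (ℕ × ℕ)) : ∀ (M : List (ℕ × ℕ)), ∀ e ∈ E,
    e.1 ∈ flat (E.foldl step M) ∨ e.2 ∈ flat (E.foldl step M) := by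
  induction E with
  | nil => intro M e h; simp at h
  | cons f E ih =>
    intro M e h
    rcases List.mem_cons.1 h with rfl | h
    · have h1 : e.1 ∈ flat (step M e) ∨ e.2 ∈ flat (step M e) := by
        unfold step
        split_ifs with h1
        · simpa using h1
        · exact Or.inl (mem_flat.2 ⟨e, List.mem_cons_self, Or.inl rfl⟩)
      rcases h1 with h1 | h1
      · obtain ⟨g, hg, h2⟩ := mem_flat.1 h1
        exact Or.inl (mem_flat.2 ⟨g, foldl_mono E _ hg, h2⟩)
      · obtain ⟨g, hg, h2⟩ := mem_flat.1 h1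
        exact Or.inr (mem_flat.2 ⟨g, foldl_mono E _ hg, h2⟩)
    · exact ih _ e h

theorem greedy_sub {E : List (ℕ × ℕ)} {f : ℕ × ℕ} (h : f ∈ greedy E) : f ∈ E := by
  rcases foldl_sub E [] h with h | h
  · simp at h
  · exact h

/-! ### The reduction -/

/-- The unmatched vertices. -/
def unm (J : GInst) : List ℕ := J.1.filter (fun v => !(decide (v ∈ flat (greedy J.2))))

/-- The gadgets: one for each edge of the greedy matching, with the names of its endpoints
shifted by one, and one for each unmatched vertex, with a zero as second vertex. -/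
def gads (J : GInst) : List (ℕ × ℕ) :=
  (greedy J.2).map (fun e => (e.1 + 1, e.2 + 1)) ++ (unm J).map (fun u => (u + 1, 0))

/-- The vertex that the agent `p`, divisible by three, stands for. -/
def vert (J : GInst) (p : ℕ) : ℕ :=
  if p % 6 = 0 then ((gads J).getD (p / 6) (0, 0)).1 else ((gads J).getD (p / 6) (0, 0)).2

/-- Joined by an edge outside the greedy matching. -/
def adj (J : GInst) (x y : ℕ) : Bool :=
  J.2.any (fun e => !(decide (e ∈ greedy J.2)) &&
    ((decide (e.1 + 1 = x) && decide (e.2 + 1 = y)) ||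
      (decide (e.1 + 1 = y) && decide (e.2 + 1 = x))))

/-- The agents that stand for vertices. -/
def reps (J : GInst) : List ℕ := (List.range (gads J).length).flatMap (fun g => [6 * g, 6 * g + 3])

/-- The coupling list. -/
def coup (J : GInst) (p : ℕ) : List ℕ :=
  if p % 3 = 0 then (reps J).filter (fun q => adj J (vert J p) (vert J q)) else []

/-- The preference list of `p`. -/
def lst (J : GInst) (p : ℕ) : List ℕ := X p :: Y p :: (coup J p ++ [Z p])

/-- The forbidden edges. -/
def forb (J : GInst) : List (ℕ × ℕ) :=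
  (List.range (gads J).length).map (fun g => (6 * g, 6 * g + 4)) ++
    ((List.range (gads J).length).filter
      (fun g => decide (((gads J).getD g (0, 0)).2 = 0))).map (fun g => (6 * g, 6 * g + 3))

/-- The instance. -/
def inst (J : GInst) : Inst :=
  ((List.range (6 * (gads J).length)).map (lst J) ++
    [[6 * (gads J).length + 1], [6 * (gads J).length]],
    (forb J, [(6 * (gads J).length, 6 * (gads J).length + 1)]))

theorem mem_reps {J : GInst} {q : ℕ} : q ∈ reps J ↔ q < 6 * (gads J).length ∧ q % 3 = 0 := by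
  unfold reps
  simp only [List.mem_flatMap, List.mem_range, List.mem_cons, List.not_mem_nil, or_false]
  constructor
  · rintro ⟨g, hg, rfl | rfl⟩ <;> constructor <;> omega
  · rintro ⟨h1, h2⟩
    exact ⟨q / 6, by omega, by omega⟩

theorem nodup_reps (J : GInst) : (reps J).Nodup := by
  unfold reps
  rw [List.nodup_flatMap]
  refine ⟨fun g _ => by simp, ?_⟩
  refine (List.nodup_range).imp ?_
  intro a b hab
  simp only [Function.onFun]
  intro v hv hv2
  simp only [List.mem_cons, List.not_mem_nil, or_false] at hv hv2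
  omega

theorem adj_iff {J : GInst} {x y : ℕ} : adj J x y = true ↔ ∃ e ∈ J.2, e ∉ greedy J.2 ∧
    ((e.1 + 1 = x ∧ e.2 + 1 = y) ∨ (e.1 + 1 = y ∧ e.2 + 1 = x)) := by
  unfold adj
  rw [List.any_eq_true]
  simp

theorem adj_symm {J : GInst} {x y : ℕ} (h : adj J x y = true) : adj J y x = true := by
  rw [adj_iff] at h ⊢
  obtain ⟨e, h1, h2, h3⟩ := h
  exact ⟨e, h1, h2, Or.symm h3⟩

theorem mem_coup {J : GInst} {p q : ℕ} : q ∈ coup J p ↔
    p % 3 = 0 ∧ q < 6 * (gads J).length ∧ q % 3 = 0 ∧ adj J (vert J p) (vert J q) = true := by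
  unfold coup
  split_ifs with h
  · rw [List.mem_filter, mem_reps]
    tauto
  · simp [h]

/-- What a gadget is. -/
theorem gad_cases {J : GInst} {g : ℕ} (hg : g < (gads J).length) :
    (∃ e ∈ greedy J.2, (gads J).getD g (0, 0) = (e.1 + 1, e.2 + 1)) ∨
      (∃ u ∈ unm J, (gads J).getD g (0, 0) = (u + 1, 0)) := by
  have h1 : (gads J).getD g (0, 0) ∈ gads J := by
    rw [List.getD_eq_getElem _ _ hg]
    exact List.getElem_mem hg
  unfold gads at h1
  rw [List.mem_append, List.mem_map, List.mem_map] at h1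
  rcases h1 with ⟨e, he, h2⟩ | ⟨u, hu, h2⟩
  · exact Or.inl ⟨e, he, h2.symm⟩
  · exact Or.inr ⟨u, hu, h2.symm⟩

theorem exists_gad {J : GInst} {y : ℕ × ℕ} (hy : y ∈ gads J) :
    ∃ g < (gads J).length, (gads J).getD g (0, 0) = y := by
  obtain ⟨g, hg, h⟩ := List.getElem_of_mem hy
  exact ⟨g, hg, by rw [List.getD_eq_getElem _ _ hg, h]⟩

theorem vert_zero (J : GInst) (g : ℕ) : vert J (6 * g) = ((gads J).getD g (0, 0)).1 := by
  unfold vert
  rw [if_pos (by omega), Nat.mul_div_cancel_left g (by omega)]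

theorem vert_three (J : GInst) (g : ℕ) : vert J (6 * g + 3) = ((gads J).getD g (0, 0)).2 := by
  unfold vert
  rw [if_neg (by omega)]
  have : (6 * g + 3) / 6 = g := by omega
  rw [this]

theorem exists_rep {J : GInst} {v : ℕ} (hv : v ∈ J.1) :
    ∃ p < 6 * (gads J).length, p % 3 = 0 ∧ vert J p = v + 1 := by
  by_cases h : v ∈ flat (greedy J.2)
  · obtain ⟨e, he, h1⟩ := mem_flat.1 h
    have : (e.1 + 1, e.2 + 1) ∈ gads J := by
      unfold gads
      exact List.mem_append_left _ (List.mem_map.2 ⟨e, he, rfl⟩)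
    obtain ⟨g, hg, h2⟩ := exists_gad this
    rcases h1 with rfl | rfl
    · exact ⟨6 * g, by omega, by omega, by rw [vert_zero, h2]⟩
    · exact ⟨6 * g + 3, by omega, by omega, by rw [vert_three, h2]⟩
  · have : (v + 1, 0) ∈ gads J := by
      unfold gads
      refine List.mem_append_right _ (List.mem_map.2 ⟨v, ?_, rfl⟩)
      unfold unm
      rw [List.mem_filter]
      exact ⟨hv, by simpa using h⟩
    obtain ⟨g, hg, h2⟩ := exists_gad this
    exact ⟨6 * g, by omega, by omega, by rw [vert_zero, h2]⟩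

/-- Agents of one gadget are not coupled. -/
theorem adj_gadget {J : GInst} (hJ : GValid J) {p q : ℕ} (hp : p < 6 * (gads J).length)
    (hq : q / 6 = p / 6) : adj J (vert J p) (vert J q) ≠ true := by
  intro h
  obtain ⟨e, he, hn, h⟩ := adj_iff.1 h
  have hlt := (hJ.2.2 e he).2.2
  have hg : p / 6 < (gads J).length := by omega
  unfold vert at h
  rw [hq] at h
  rcases gad_cases hg with ⟨f, hf, h1⟩ | ⟨u, hu, h1⟩
  · have hf2 := (hJ.2.2 f (greedy_sub hf)).2.2
    rw [h1] at h
    have hne : ¬ (e.1 = f.1 ∧ e.2 = f.2) := by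
      rintro ⟨h2, h3⟩
      have : e = f := Prod.ext h2 h3
      rw [this] at hn
      exact hn hf
    simp only at h
    split_ifs at h <;> omega
  · rw [h1] at h
    simp only at h
    split_ifs at h <;> rcases h with ⟨h3, h4⟩ | ⟨h3, h4⟩ <;>
      first | exact h3 | exact h4 | omega

theorem pref_inst {J : GInst} {p : ℕ} (hp : p < 6 * (gads J).length) :
    pref (inst J) p = lst J p := by
  unfold pref inst
  simp only
  rw [List.getD_eq_getElem?_getD, List.getElem?_append_left (by simpa using hp)]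
  simp [hp]

theorem sys_inst {J : GInst} (hJ : GValid J) : Sys (inst J) (gads J).length (coup J) := by
  refine ⟨?_, ?_, ?_, ?_, ?_, ?_⟩
  · simp [inst]
  · intro p hp
    rw [pref_inst hp]
    rfl
  · unfold pref inst
    simp only
    rw [List.getD_eq_getElem?_getD, List.getElem?_append_right (by simp)]
    simp
  · unfold pref inst
    simp only
    rw [List.getD_eq_getElem?_getD, List.getElem?_append_right (by simp)]
    simp
  · intro p hp q hq
    obtain ⟨h1, h2, h3, h4⟩ := mem_coup.1 hq
    refine ⟨h2, mem_coup.2 ⟨h3, hp, h1, adj_symm h4⟩, fun h5 => ?_⟩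
    exact adj_gadget hJ hp h5 h4
  · intro p _
    unfold coup
    split_ifs
    · exact (nodup_reps J).filter _
    · exact List.nodup_nil

theorem nodup_forb (J : GInst) : (forb J).Nodup := by
  unfold forb
  rw [List.nodup_append']
  refine ⟨?_, ?_, ?_⟩
  · exact (List.nodup_range).map (fun a b h => by simp at h; exact h)
  · exact ((List.nodup_range).filter _).map (fun a b h => by simp at h; exact h)
  · intro e he hf
    rw [List.mem_map] at he hf
    obtain ⟨g, _, rfl⟩ := he
    obtain ⟨k, _, h⟩ := hf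
    simp only [Prod.mk.injEq] at h
    omega

theorem X_six (g : ℕ) : X (6 * g) = 6 * g + 3 := by
  unfold X; split_ifs <;> omega

theorem Y_six (g : ℕ) : Y (6 * g) = 6 * g + 4 := by
  unfold Y; split_ifs <;> omega

theorem mem_forb {J : GInst} {e : ℕ × ℕ} (he : e ∈ forb J) : ∃ g < (gads J).length,
    e = (6 * g, Y (6 * g)) ∨ e = (6 * g, X (6 * g)) := by
  unfold forb at he
  rw [List.mem_append, List.mem_map, List.mem_map] at he
  rcases he with ⟨g, hg, rfl⟩ | ⟨g, hg, rfl⟩
  · exact ⟨g, List.mem_range.1 hg, Or.inl (by rw [Y_six])⟩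
  · exact ⟨g, List.mem_range.1 (List.mem_filter.1 hg).1, Or.inr (by rw [X_six])⟩

theorem valid_inst {J : GInst} (hJ : GValid J) : Valid (inst J) := by
  have h := sys_inst hJ
  refine ⟨h.valid_agents, ?_, ?_, nodup_forb J, by simp [forced, inst], ?_⟩
  · intro e he
    obtain ⟨g, hg, rfl | rfl⟩ := mem_forb he
    · refine ⟨by change 6 * g < Y (6 * g); rw [Y_six]; omega, ?_⟩
      change Y (6 * g) ∈ pref (inst J) (6 * g)
      rw [h.mem (by omega)]
      exact Or.inr (Or.inl rfl)
    · refine ⟨by change 6 * g < X (6 * g); rw [X_six]; omega, ?_⟩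
      change X (6 * g) ∈ pref (inst J) (6 * g)
      rw [h.mem (by omega)]
      exact Or.inl rfl
  · intro e he
    unfold forced inst at he
    simp only [List.mem_cons, List.not_mem_nil, or_false] at he
    rw [he]
    refine ⟨by simp, ?_⟩
    change 6 * (gads J).length + 1 ∈ pref (inst J) (6 * (gads J).length)
    rw [h.pr1]
    exact List.mem_singleton.2 rfl
  · intro e he hf
    obtain ⟨g, hg, h1⟩ := mem_forb he
    unfold forced inst at hf
    simp only [List.mem_cons, List.not_mem_nil, or_false] at hf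
    rw [hf] at h1
    simp only [Prod.mk.injEq] at h1
    omega

/-! ### From covers to stable matchings -/

/-- The shifted vertex cover. -/
def sh (T : Finset ℕ) : Finset ℕ := T.image (fun v => v + 1)

theorem mem_sh {T : Finset ℕ} {v : ℕ} : v + 1 ∈ sh T ↔ v ∈ T := by
  unfold sh
  simp

theorem zero_sh (T : Finset ℕ) : 0 ∉ sh T := by
  unfold sh
  simp

/-- The states given by a vertex cover. -/
def stt (J : GInst) (T : Finset ℕ) (g : ℕ) : ℕ :=
  if vert J (6 * g) ∈ sh T then (if vert J (6 * g + 3) ∈ sh T then 1 else 0) else 2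

theorem tt_cover {J : GInst} {T : Finset ℕ} {p : ℕ} (hp : p % 3 = 0)
    (h : vert J p ∈ sh T) : tt (stt J T) p ≠ Z p := by
  unfold tt
  split_ifs with h1 h2
  · exact YZ_ne p
  · exact XZ_ne p
  · exfalso
    have hcase : p = 6 * (p / 6) ∨ p = 6 * (p / 6) + 3 := by omega
    rcases hcase with hc | hc
    · rw [hc] at h
      have hs : stt J T (p / 6) = 1 ∨ stt J T (p / 6) = 0 := by
        unfold stt
        rw [if_pos h]
        split_ifs <;> simp
      exact h2 ⟨fun _ => by tauto, fun _ => by omega⟩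
    · rw [hc] at h
      have hs : stt J T (p / 6) ≠ 0 := by
        unfold stt
        rw [if_pos h]
        split_ifs <;> simp
      exact h2 ⟨fun _ => by omega, fun h3 => absurd h3 hs⟩

theorem stable_of_cover {J : GInst} (hJ : GValid J) {T : Finset ℕ} (hT : IsCover J T) :
    Stable (inst J) (mst (gads J).length (stt J T)) := by
  refine (sys_inst hJ).stable_mst ?_
  intro p hp q hq h1 h2
  obtain ⟨h3, h4, h5, h6⟩ := mem_coup.1 hq
  obtain ⟨e, he, _, h7⟩ := adj_iff.1 h6
  have h8 : vert J p ∈ sh T ∨ vert J q ∈ sh T := by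
    rcases h7 with ⟨h7, h8⟩ | ⟨h7, h8⟩
    · rw [← h7, ← h8, mem_sh, mem_sh]
      exact hT.2 e he
    · rw [← h7, ← h8, mem_sh, mem_sh]
      exact (hT.2 e he).symm
  rcases h8 with h8 | h8
  · exact tt_cover h3 h8 h1
  · exact tt_cover h5 h8 h2

/-! ### Costs -/

theorem cost_inst {J : GInst} {M : Finset (ℕ × ℕ)}
    (hM : (6 * (gads J).length, 6 * (gads J).length + 1) ∈ M) :
    cost (inst J) M = ∑ g ∈ Finset.range (gads J).length,
      ((if (6 * g, 6 * g + 4) ∈ M then 1 else 0) +
        (if vert J (6 * g + 3) = 0 ∧ (6 * g, 6 * g + 3) ∈ M then 1 else 0)) := by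
  unfold cost
  have h1 : ((forced (inst J)).toFinset \ M).card = 0 := by
    rw [Finset.card_eq_zero, Finset.sdiff_eq_empty_iff_subset]
    intro e he
    rw [List.mem_toFinset] at he
    unfold forced inst at he
    simp only [List.mem_cons, List.not_mem_nil, or_false] at he
    rw [he]
    exact hM
  rw [h1, add_zero]
  have h2 : forbidden (inst J) = forb J := rfl
  rw [h2, card_inter_eq (nodup_forb J)]
  unfold forb
  rw [List.countP_append, List.countP_map, List.countP_map, List.countP_filter, countP_range,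
    countP_range, ← Finset.sum_add_distrib]
  refine Finset.sum_congr rfl fun g _ => ?_
  simp only [Function.comp, decide_eq_true_eq, Bool.and_eq_true, vert_three]
  congr 1
  refine if_congr ?_ rfl rfl
  tauto

theorem length_greedy (J : GInst) : (greedy J.2).length =
    ∑ g ∈ Finset.range (gads J).length, if vert J (6 * g + 3) = 0 then 0 else 1 := by
  have h1 : ∀ g, (if vert J (6 * g + 3) = 0 then 0 else 1) =
      (fun y : ℕ × ℕ => if y.2 = 0 then 0 else 1) ((gads J).getD g (0, 0)) := by
    intro g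
    rw [vert_three]
  refine Eq.symm ((Finset.sum_congr rfl fun g _ => h1 g).trans ((sum_getD (gads J) (0, 0)
    (fun y : ℕ × ℕ => if y.2 = 0 then 0 else 1)).trans ?_))
  unfold gads
  rw [List.map_append, List.sum_append, List.map_map, List.map_map]
  have h2 : ((greedy J.2).map ((fun y : ℕ × ℕ => if y.2 = 0 then 0 else 1) ∘
      (fun e : ℕ × ℕ => (e.1 + 1, e.2 + 1)))).sum = (greedy J.2).length := by
    induction greedy J.2 with
    | nil => rfl
    | cons e l ih => simp only [List.map_cons, List.sum_cons, ih, List.length_cons,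
        Function.comp, Nat.succ_ne_zero, if_false]; omega
  have h3 : ((unm J).map ((fun y : ℕ × ℕ => if y.2 = 0 then 0 else 1) ∘
      (fun u : ℕ => (u + 1, 0)))).sum = 0 := by
    induction unm J with
    | nil => rfl
    | cons e l ih => simp only [List.map_cons, List.sum_cons, ih, Function.comp, if_true]
  rw [h2, h3, add_zero]

theorem sum_ends (J : GInst) (T : Finset ℕ) :
    ∑ g ∈ Finset.range (gads J).length, ((if vert J (6 * g) ∈ sh T then 1 else 0) +
      (if vert J (6 * g + 3) ∈ sh T then 1 else 0)) =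
    (flat (greedy J.2) ++ unm J).countP (fun v => decide (v ∈ T)) := by
  have h1 : ∀ g, ((if vert J (6 * g) ∈ sh T then 1 else 0) +
      (if vert J (6 * g + 3) ∈ sh T then 1 else 0)) =
      (fun y : ℕ × ℕ => (if y.1 ∈ sh T then 1 else 0) + (if y.2 ∈ sh T then 1 else 0))
        ((gads J).getD g (0, 0)) := by
    intro g
    rw [vert_three, vert_zero]
  refine (Finset.sum_congr rfl fun g _ => h1 g).trans ((sum_getD (gads J) (0, 0)
    (fun y : ℕ × ℕ => (if y.1 ∈ sh T then 1 else 0) + (if y.2 ∈ sh T then 1 else 0))).trans ?_)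
  unfold gads
  rw [List.map_append, List.sum_append, List.map_map, List.map_map, List.countP_append]
  congr 1
  · induction greedy J.2 with
    | nil => rfl
    | cons e l ih =>
      have h2 : flat (e :: l) = e.1 :: e.2 :: flat l := rfl
      rw [h2]
      simp only [List.map_cons, List.sum_cons, ih, Function.comp, mem_sh, List.countP_cons,
        decide_eq_true_eq]
      omega
  · induction unm J with
    | nil => rfl
    | cons e l ih =>
      simp only [List.map_cons, List.sum_cons, ih, Function.comp, mem_sh, List.countP_cons,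
        decide_eq_true_eq, zero_sh, if_false]
      omega

theorem nodup_ends {J : GInst} (hJ : GValid J) : (flat (greedy J.2) ++ unm J).Nodup := by
  rw [List.nodup_append']
  refine ⟨foldl_nodup J.2 (fun e he => (hJ.2.2 e he).2.2.ne) [] List.nodup_nil,
    hJ.1.filter _, ?_⟩
  intro v hv hu
  unfold unm at hu
  rw [List.mem_filter] at hu
  simp only [Bool.not_eq_true', decide_eq_false_iff_not] at hu
  exact hu.2 hv

theorem last_mem_mst {G : ℕ} {st : ℕ → ℕ} : (6 * G, 6 * G + 1) ∈ mst G st :=
  mem_mst.2 (Or.inl ⟨rfl, rfl⟩)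

/-- A vertex cover gives a stable matching whose cost is its size minus the number of greedy
edges. -/
theorem cost_cover {J : GInst} (hJ : GValid J) {T : Finset ℕ} (hT : IsCover J T) :
    cost (inst J) (mst (gads J).length (stt J T)) + (greedy J.2).length ≤ T.card := by
  rw [cost_inst last_mem_mst, length_greedy, ← Finset.sum_add_distrib]
  refine le_trans ?_ (countP_mem_le (nodup_ends hJ) T)
  rw [← sum_ends]
  refine Finset.sum_le_sum fun g hg => ?_
  have hg' : g < (gads J).length := Finset.mem_range.1 hg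
  have e4 : (6 * g, 6 * g + 4) ∈ mst (gads J).length (stt J T) → stt J T g = 1 := by
    intro h
    rcases mem_mst.1 h with h | ⟨_, _, h⟩
    · omega
    · unfold tt at h
      have hd : 6 * g / 6 = g := by omega
      rw [hd] at h
      by_contra hne
      rw [if_neg hne] at h
      have := X_six g
      have := Y_six g
      have := YZ_ne (6 * g)
      split_ifs at h <;> omega
  have e3 : (6 * g, 6 * g + 3) ∈ mst (gads J).length (stt J T) → stt J T g = 0 := by
    intro h
    rcases mem_mst.1 h with h | ⟨_, _, h⟩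
    · omega
    · unfold tt at h
      have hd : 6 * g / 6 = g := by omega
      rw [hd] at h
      have h1 := X_six g
      have h2 := Y_six g
      have h3 := XZ_ne (6 * g)
      split_ifs at h with h4 h5
      · omega
      · exact h5.1 (by omega)
      · omega
  rcases gad_cases hg' with ⟨f, hf, h1⟩ | ⟨u, hu, h1⟩
  · have hv0 : vert J (6 * g) = f.1 + 1 := by rw [vert_zero, h1]
    have hv3 : vert J (6 * g + 3) = f.2 + 1 := by rw [vert_three, h1]
    have hst : stt J T g = if f.1 ∈ T then (if f.2 ∈ T then 1 else 0) else 2 := by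
      unfold stt
      rw [hv0, hv3]
      simp only [mem_sh]
    rw [hst] at e4 e3
    rw [hv0, hv3]
    simp only [mem_sh]
    have hc := hT.2 f (greedy_sub hf)
    by_cases h2 : f.1 ∈ T <;> by_cases h3 : f.2 ∈ T <;>
      simp only [h2, h3, if_true, if_false] at e4 e3 hc ⊢
    · split_ifs <;> simp_all
    · split_ifs <;> simp_all
    · split_ifs <;> simp_all
    · simp at hc
  · have hv0 : vert J (6 * g) = u + 1 := by rw [vert_zero, h1]
    have hv3 : vert J (6 * g + 3) = 0 := by rw [vert_three, h1]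
    have hz := zero_sh T
    have hst : stt J T g = if u ∈ T then 0 else 2 := by
      unfold stt
      rw [hv0, hv3]
      simp only [mem_sh, if_neg hz]
    rw [hst] at e4 e3
    rw [hv0, hv3]
    simp only [mem_sh]
    by_cases h2 : u ∈ T <;> simp only [h2, hz, if_true, if_false] at e4 e3 ⊢
    · split_ifs <;> simp_all
    · split_ifs <;> simp_all

/-! ### From stable matchings to covers -/

/-- The agent `p` has its first or second choice. -/
def inS (o : List (ℕ × ℕ)) (p : ℕ) : Bool :=
  (decide ((p, X p) ∈ o) || decide ((X p, p) ∈ o)) ||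
    (decide ((p, Y p) ∈ o) || decide ((Y p, p) ∈ o))

theorem inS_iff {o : List (ℕ × ℕ)} {p : ℕ} :
    inS o p = true ↔ Mat o.toFinset p (X p) ∨ Mat o.toFinset p (Y p) := by
  unfold inS Mat
  simp

/-- The vertex cover read off from a stable matching. -/
def cov (J : GInst) (o : List (ℕ × ℕ)) : List ℕ :=
  J.1.filter (fun v => (reps J).any (fun p => decide (vert J p = v + 1) && inS o p))

theorem mem_cov {J : GInst} {o : List (ℕ × ℕ)} {v : ℕ} : v ∈ cov J o ↔
    v ∈ J.1 ∧ ∃ p ∈ reps J, vert J p = v + 1 ∧ inS o p = true := by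
  unfold cov
  rw [List.mem_filter, List.any_eq_true]
  simp

theorem cov_cover {J : GInst} (hJ : GValid J) {o : List (ℕ × ℕ)}
    (ho : Stable (inst J) o.toFinset) : IsCover J (cov J o).toFinset := by
  have h := sys_inst hJ
  refine ⟨fun v hv => ?_, fun e he => ?_⟩
  · rw [List.mem_toFinset, mem_cov] at hv
    exact hv.1
  · obtain ⟨hv1, hv2, hlt⟩ := hJ.2.2 e he
    rw [List.mem_toFinset, List.mem_toFinset, mem_cov, mem_cov]
    have key : ∃ p q, p ∈ reps J ∧ q ∈ reps J ∧ vert J p = e.1 + 1 ∧ vert J q = e.2 + 1 ∧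
        (inS o p = true ∨ inS o q = true) := by
      by_cases hg : e ∈ greedy J.2
      · have : (e.1 + 1, e.2 + 1) ∈ gads J := by
          unfold gads
          exact List.mem_append_left _ (List.mem_map.2 ⟨e, hg, rfl⟩)
        obtain ⟨g, hg, h2⟩ := exists_gad this
        refine ⟨6 * g, 6 * g + 3, mem_reps.2 ⟨by omega, by omega⟩, mem_reps.2 ⟨by omega, by omega⟩,
          by rw [vert_zero, h2], by rw [vert_three, h2], ?_⟩
        rw [inS_iff, inS_iff]
        by_contra hcon
        push Not at hcon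
        obtain ⟨⟨h3, h4⟩, h5, h6⟩ := hcon
        have b1 := h.bad ho (by omega : 6 * g < 6 * (gads J).length) h3 h4
        rw [Y_six] at b1
        have e1 : X (6 * g + 4) = 6 * g + 2 := by unfold X; split_ifs <;> omega
        rw [e1] at b1
        have b2 := b1.symm
        have c1 : ¬ Mat o.toFinset (6 * g + 2) (X (6 * g + 2)) := by
          intro h7
          have h8 := ho.uniq b2 h7
          have : X (6 * g + 2) = 6 * g + 5 := by unfold X; split_ifs <;> omega
          omega
        have e2 : Y (6 * g + 2) = 6 * g + 3 := by unfold Y; split_ifs <;> omega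
        have c2 : ¬ Mat o.toFinset (6 * g + 2) (Y (6 * g + 2)) := by
          intro h7
          have h8 := ho.uniq b2 h7
          omega
        have b3 := h.bad ho (by omega : 6 * g + 2 < 6 * (gads J).length) c1 c2
        rw [e2] at b3
        exact h5 b3
      · obtain ⟨p, hp, hp3, hpv⟩ := exists_rep hv1
        obtain ⟨q, hq, hq3, hqv⟩ := exists_rep hv2
        refine ⟨p, q, mem_reps.2 ⟨hp, hp3⟩, mem_reps.2 ⟨hq, hq3⟩, hpv, hqv, ?_⟩
        rw [inS_iff, inS_iff]
        by_contra hcon
        push Not at hcon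
        obtain ⟨⟨h3, h4⟩, h5, h6⟩ := hcon
        have hz1 := h.bad2 ho hp h3 h4
        have hz2 := h.bad2 ho hq h5 h6
        refine h.coupled ho hp (v := q) ?_ hz1 hz2
        rw [mem_coup]
        refine ⟨hp3, hq, hq3, ?_⟩
        rw [adj_iff, hpv, hqv]
        exact ⟨e, he, hg, Or.inl ⟨rfl, rfl⟩⟩
    obtain ⟨p, q, hp, hq, hpv, hqv, h1 | h1⟩ := key
    · exact Or.inl ⟨hv1, p, hp, hpv, h1⟩
    · exact Or.inr ⟨hv2, q, hq, hqv, h1⟩

theorem countP_reps (J : GInst) (f : ℕ → Bool) : (reps J).countP f =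
    ∑ g ∈ Finset.range (gads J).length,
      ((if f (6 * g) = true then 1 else 0) + (if f (6 * g + 3) = true then 1 else 0)) := by
  unfold reps
  rw [List.countP_flatMap]
  have : ∀ g, (List.countP f ∘ fun g => [6 * g, 6 * g + 3]) g =
      ((if f (6 * g) = true then 1 else 0) + (if f (6 * g + 3) = true then 1 else 0)) := by
    intro g
    simp only [Function.comp, List.countP_cons, List.countP_nil]
    omega
  rw [Finset.sum_congr rfl fun g _ => (this g).symm, Finset.sum_eq_multiset_sum]
  rfl

theorem cov_card {J : GInst} (hJ : GValid J) {o : List (ℕ × ℕ)}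
    (ho : Stable (inst J) o.toFinset) :
    (cov J o).length ≤ (greedy J.2).length + cost (inst J) o.toFinset := by
  classical
  have h := sys_inst hJ
  have h1 : (cov J o).length ≤
      (reps J).countP (fun p => decide (vert J p ≠ 0) && inS o p) := by
    have hnd : (cov J o).Nodup := hJ.1.filter _
    rw [← List.toFinset_card_of_nodup hnd, List.countP_eq_length_filter]
    have h2 : (cov J o).toFinset ⊆ (((reps J).filter
        (fun p => decide (vert J p ≠ 0) && inS o p)).map (fun p => vert J p - 1)).toFinset := by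
      intro v hv
      rw [List.mem_toFinset, mem_cov] at hv
      obtain ⟨_, p, hp, hpv, hin⟩ := hv
      rw [List.mem_toFinset, List.mem_map]
      refine ⟨p, List.mem_filter.2 ⟨hp, ?_⟩, by omega⟩
      rw [Bool.and_eq_true, decide_eq_true_eq]
      exact ⟨by omega, hin⟩
    refine (Finset.card_le_card h2).trans ((List.toFinset_card_le _).trans ?_)
    rw [List.length_map]
  refine h1.trans ?_
  rw [countP_reps, length_greedy, cost_inst (h.last ho), ← Finset.sum_add_distrib]
  refine Finset.sum_le_sum fun g hg => ?_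
  have hg' : g < (gads J).length := Finset.mem_range.1 hg
  have i1 : inS o (6 * g) = true → (6 * g, 6 * g + 3) ∈ o.toFinset ∨
      (6 * g, 6 * g + 4) ∈ o.toFinset := by
    intro h3
    rw [inS_iff, X_six, Y_six] at h3
    rcases h3 with h3 | h3
    · exact Or.inl (mat_lt ho (by omega) h3)
    · exact Or.inr (mat_lt ho (by omega) h3)
  have i2 : (6 * g, 6 * g + 3) ∈ o.toFinset → ¬ inS o (6 * g + 3) = true := by
    intro h3 h4
    rw [inS_iff] at h4
    have h5 : Mat o.toFinset (6 * g + 3) (6 * g) := Or.inr h3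
    have eX : X (6 * g + 3) = 6 * g + 1 := by unfold X; split_ifs <;> omega
    have eY : Y (6 * g + 3) = 6 * g + 2 := by unfold Y; split_ifs <;> omega
    rcases h4 with h4 | h4
    · have := ho.uniq h4 h5
      omega
    · have := ho.uniq h4 h5
      omega
  simp only [Bool.and_eq_true, decide_eq_true_eq]
  by_cases hv : vert J (6 * g + 3) = 0
  · by_cases h0 : inS o (6 * g) = true
    · rcases i1 h0 with h5 | h5
      · simp only [hv, h5, h0]
        split_ifs <;> simp_all
      · simp only [hv, h5, h0]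
        split_ifs <;> simp_all
    · simp [hv, h0]
  · by_cases h0 : inS o (6 * g) = true
    · rcases i1 h0 with h5 | h5
      · have h6 := i2 h5
        simp only [hv, h6]
        split_ifs <;> simp_all
      · simp only [hv, h5]
        split_ifs <;> simp_all
    · simp only [hv, h0]
      split_ifs <;> simp_all

/-! ### The algorithm for Vertex Cover -/

/-- The better one of the two vertex covers. -/
def vc (A : Inst → List (ℕ × ℕ)) (J : GInst) : List ℕ :=
  if (cov J (A (inst J))).length ≤ (flat (greedy J.2)).length then cov J (A (inst J))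
  else flat (greedy J.2)

theorem flat_cover {J : GInst} (hJ : GValid J) : IsCover J (flat (greedy J.2)).toFinset := by
  refine ⟨fun v hv => ?_, fun e he => ?_⟩
  · obtain ⟨e, he, h1⟩ := mem_flat.1 (List.mem_toFinset.1 hv)
    have h2 := hJ.2.2 e (greedy_sub he)
    rcases h1 with rfl | rfl
    · exact h2.1
    · exact h2.2.1
  · rw [List.mem_toFinset, List.mem_toFinset]
    exact foldl_max J.2 [] e he

theorem gads_ne {J : GInst} (hne : J.1 ≠ []) : 0 < (gads J).length := by
  obtain ⟨v, hv⟩ := List.exists_mem_of_ne_nil _ hne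
  obtain ⟨p, hp, _⟩ := exists_rep hv
  omega

theorem all_cover {J : GInst} (hJ : GValid J) : IsCover J J.1.toFinset :=
  ⟨fun _ hv => List.mem_toFinset.1 hv, fun e he => Or.inl (List.mem_toFinset.2 (hJ.2.2 e he).1)⟩

theorem inClass_inst {J : GInst} (hJ : GValid J) (hne : J.1 ≠ []) : InClass (inst J) := by
  have h := sys_inst hJ
  have hG := gads_ne hne
  refine ⟨valid_inst hJ, ⟨_, stable_of_cover hJ (all_cover hJ)⟩, by simp [forced, inst], ?_⟩
  intro M hM
  have hlen : (forced (inst J)).length = 1 := by simp [forced, inst]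
  rw [hlen]
  have h1 := h.last hM
  have h2 : ∃ w, Mat M 0 w := by
    rcases h.tri hM (u := 0) (by omega) with h2 | h2 | h2 <;> exact ⟨_, h2⟩
  obtain ⟨w, h2 | h2⟩ := h2
  · exact Finset.one_lt_card.2 ⟨_, h1, _, h2, fun h3 => by
      simp only [Prod.mk.injEq] at h3
      omega⟩
  · exact Finset.one_lt_card.2 ⟨_, h1, _, h2, fun h3 => by
      simp only [Prod.mk.injEq] at h3
      omega⟩

theorem vc_correct {ρ : ℝ} (hρ : 1 ≤ ρ) {A : Inst → List (ℕ × ℕ)}
    (hA : ∀ I, InClass I → Stable I (A I).toFinset ∧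
      ∀ M, Stable I M → (cost I (A I).toFinset : ℝ) ≤ ρ * cost I M)
    {J : GInst} (hJ : GValid J) :
    IsCover J (vc A J).toFinset ∧
      ∀ T, IsCover J T → ((vc A J).toFinset.card : ℝ) ≤ 2 * ρ / (ρ + 1) * T.card := by
  by_cases hne : J.1 = []
  · have hE : J.2 = [] := by
      rw [List.eq_nil_iff_forall_not_mem]
      intro e he
      have := (hJ.2.2 e he).1
      rw [hne] at this
      simp at this
    have h0 : vc A J = [] := by
      unfold vc
      rw [if_pos]
      · unfold cov
        rw [hne]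
        rfl
      · unfold cov
        rw [hne]
        simp
    rw [h0]
    refine ⟨⟨by simp, fun e he => by rw [hE] at he; simp at he⟩, fun T _ => ?_⟩
    simp only [List.toFinset_nil, Finset.card_empty, Nat.cast_zero]
    positivity
  · have hcl := inClass_inst hJ hne
    obtain ⟨h1, h2⟩ := hA _ hcl
    have hcov := cov_cover hJ h1
    have hcard := cov_card hJ h1
    have hC : (vc A J).toFinset.card ≤ (cov J (A (inst J))).length ∧
        (vc A J).toFinset.card ≤ (flat (greedy J.2)).length := by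
      unfold vc
      split_ifs with h3
      · exact ⟨List.toFinset_card_le _, (List.toFinset_card_le _).trans h3⟩
      · exact ⟨(List.toFinset_card_le _).trans (by omega), List.toFinset_card_le _⟩
    refine ⟨?_, fun T hT => ?_⟩
    · unfold vc
      split_ifs
      · exact hcov
      · exact flat_cover hJ
    · have h3 := h2 _ (stable_of_cover hJ hT)
      have h4 := cost_cover hJ hT
      rw [length_flat] at hC
      set C := (vc A J).toFinset.card
      set μ := (greedy J.2).length
      set k1 := cost (inst J) (A (inst J)).toFinset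
      set k2 := cost (inst J) (mst (gads J).length (stt J T))
      have e1 : (C : ℝ) ≤ μ + k1 := by exact_mod_cast hC.1.trans hcard
      have e2 : (C : ℝ) ≤ 2 * μ := by exact_mod_cast hC.2
      have e3 : (k2 : ℝ) + μ ≤ T.card := by exact_mod_cast h4
      have e4 : ρ * k2 ≤ ρ * (T.card - μ) := mul_le_mul_of_nonneg_left (by linarith) (by linarith)
      rw [div_mul_eq_mul_div, le_div_iff₀ (by linarith)]
      nlinarith [mul_nonneg (sub_nonneg.2 hρ) (sub_nonneg.2 e2)]

/-! ### Polynomial time -/

section PolyTime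

variable {β : Type} [TEnc β]

theorem poly_mem2 {f : β → ℕ × ℕ} {l : β → List (ℕ × ℕ)} (hf : Poly f) (hl : Poly l) :
    Poly (fun a => decide (f a ∈ l a)) :=
  (Poly.decide_mem hf hl).congr fun _ => decide_eq_decide.2 Iff.rfl

theorem poly_mem1 {f : β → ℕ} {l : β → List ℕ} (hf : Poly f) (hl : Poly l) :
    Poly (fun a => decide (f a ∈ l a)) :=
  (Poly.decide_mem hf hl).congr fun _ => decide_eq_decide.2 Iff.rfl

theorem poly_flat {M : β → List (ℕ × ℕ)} (hM : Poly M) : Poly (fun a => flat (M a)) :=
  Poly.flatMap (l := M) (F := fun _ (e : ℕ × ℕ) => [e.1, e.2]) hM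
    (Poly.cons (Poly.fst (Poly.snd Poly.id)) (Poly.cons (Poly.snd (Poly.snd Poly.id))
      (NPC.Poly.const [])))

theorem poly_step {M : β → List (ℕ × ℕ)} {e : β → ℕ × ℕ} (hM : Poly M) (he : Poly e) :
    Poly (fun a => step (M a) (e a)) := by
  have h1 : Poly (fun a => decide ((e a).1 ∈ flat (M a)) || decide ((e a).2 ∈ flat (M a))) :=
    Poly.or (poly_mem1 (Poly.fst he) (poly_flat hM)) (poly_mem1 (Poly.snd he) (poly_flat hM))
  exact Poly.ite (Poly.decide_bool h1) hM (Poly.cons he hM)

theorem foldl_sz (E : List (ℕ × ℕ)) : ∀ (M : List (ℕ × ℕ)),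
    sz (E.foldl step M) + 1 ≤ sz M + sz E := by
  induction E with
  | nil => intro M; simp
  | cons e E ih =>
    intro M
    have h1 := ih (step M e)
    have h2 : sz (step M e) ≤ sz M + sz e + 1 := by
      unfold step
      split_ifs
      · omega
      · rw [sz_list_cons]; omega
    have h3 : sz (e :: E) = sz e + sz E + 1 := sz_list_cons e E
    rw [List.foldl_cons]
    omega

theorem poly_greedy {E : β → List (ℕ × ℕ)} (hE : Poly E) : Poly (fun a => greedy (E a)) := by
  obtain ⟨p, hp⟩ := hE.sz_le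
  refine Poly.foldl (l := E) (s := fun _ => ([] : List (ℕ × ℕ)))
    (F := fun _ M e => step M e) hE (NPC.Poly.const _) ?_ p ?_
  · exact poly_step (Poly.fst (Poly.snd Poly.id)) (Poly.snd (Poly.snd Poly.id))
  · intro a k _
    have h1 := foldl_sz ((E a).take k) []
    have h2 := NPC.Poly.sz_take_le (E a) k
    have h3 := hp a
    have h4 : sz ([] : List (ℕ × ℕ)) = 1 := sz_list_nil
    have h5 : sz (((E a).take k).foldl step []) + 1 ≤ 1 + sz ((E a).take k) := by
      rw [← h4]
      exact h1
    change sz (((E a).take k).foldl step []) ≤ _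
    omega

theorem poly_X {p : β → ℕ} (hp : Poly p) : Poly (fun a => X (p a)) := by
  have h6 : Poly (fun a => p a % 6) := Poly.mod hp (NPC.Poly.const 6)
  have h0 : Poly (fun a => 6 * (p a / 6)) :=
    Poly.mul (NPC.Poly.const 6) (Poly.div hp (NPC.Poly.const 6))
  exact Poly.add h0 (Poly.ite (Poly.decide_lt h6 (NPC.Poly.const 3))
    (Poly.add h6 (NPC.Poly.const 3)) (Poly.mod (Poly.succ hp) (NPC.Poly.const 3)))

theorem poly_Y {p : β → ℕ} (hp : Poly p) : Poly (fun a => Y (p a)) := by
  have h6 : Poly (fun a => p a % 6) := Poly.mod hp (NPC.Poly.const 6)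
  have h0 : Poly (fun a => 6 * (p a / 6)) :=
    Poly.mul (NPC.Poly.const 6) (Poly.div hp (NPC.Poly.const 6))
  exact Poly.add h0 (Poly.ite (Poly.decide_lt h6 (NPC.Poly.const 3))
    (Poly.add (Poly.mod (Poly.succ hp) (NPC.Poly.const 3)) (NPC.Poly.const 3))
    (Poly.mod (Poly.add hp (NPC.Poly.const 2)) (NPC.Poly.const 3)))

theorem poly_Z {p : β → ℕ} (hp : Poly p) : Poly (fun a => Z (p a)) := by
  have h6 : Poly (fun a => p a % 6) := Poly.mod hp (NPC.Poly.const 6)
  have h0 : Poly (fun a => 6 * (p a / 6)) :=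
    Poly.mul (NPC.Poly.const 6) (Poly.div hp (NPC.Poly.const 6))
  exact Poly.add h0 (Poly.ite (Poly.decide_lt h6 (NPC.Poly.const 3))
    (Poly.add (Poly.mod (Poly.add hp (NPC.Poly.const 2)) (NPC.Poly.const 3)) (NPC.Poly.const 3))
    (Poly.mod hp (NPC.Poly.const 3)))

theorem poly_unm {f : β → GInst} (hf : Poly f) : Poly (fun a => unm (f a)) := by
  have h1 : Poly (fun x : β × ℕ => !(decide (x.2 ∈ flat (greedy (f x.1).2)))) :=
    Poly.not (poly_mem1 (Poly.snd Poly.id)
      (poly_flat (poly_greedy (Poly.snd (hf.comp (Poly.fst Poly.id))))))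
  exact Poly.filter (l := fun a => (f a).1)
    (p := fun a v => !(decide (v ∈ flat (greedy (f a).2)))) (Poly.fst hf) h1

theorem poly_gads {f : β → GInst} (hf : Poly f) : Poly (fun a => gads (f a)) := by
  have h1 : Poly (fun a => (greedy (f a).2).map (fun e => (e.1 + 1, e.2 + 1))) :=
    NPC.Poly.map (l := fun a => greedy (f a).2)
      (F := fun _ (e : ℕ × ℕ) => (e.1 + 1, e.2 + 1)) (poly_greedy (Poly.snd hf))
      (Poly.pair (Poly.succ (Poly.fst (Poly.snd Poly.id))) (Poly.succ (Poly.snd (Poly.snd Poly.id))))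
  have h2 : Poly (fun a => (unm (f a)).map (fun u => (u + 1, 0))) :=
    NPC.Poly.map (l := fun a => unm (f a)) (F := fun _ (u : ℕ) => (u + 1, 0)) (poly_unm hf)
      (Poly.pair (Poly.succ (Poly.snd Poly.id)) (NPC.Poly.const 0))
  exact Poly.append h1 h2

theorem upoly_G {f : β → GInst} (hf : Poly f) : UPoly (fun a => (gads (f a)).length) :=
  UPoly.length (poly_gads hf)

theorem poly_getgad {f : β → GInst} {g : β → ℕ} (hf : Poly f) (hg : Poly g) :
    Poly (fun a => (gads (f a)).getD (g a) (0, 0)) :=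
  Poly.getD (poly_gads hf) hg (NPC.Poly.const (0, 0))

theorem poly_vert {f : β → GInst} {p : β → ℕ} (hf : Poly f) (hp : Poly p) :
    Poly (fun a => vert (f a) (p a)) := by
  have h1 : Poly (fun a => (gads (f a)).getD (p a / 6) (0, 0)) :=
    poly_getgad hf (Poly.div hp (NPC.Poly.const 6))
  exact Poly.ite (Poly.decide_eq (Poly.mod hp (NPC.Poly.const 6)) (NPC.Poly.const 0))
    (Poly.fst h1) (Poly.snd h1)

theorem poly_adj {f : β → GInst} {x y : β → ℕ} (hf : Poly f) (hx : Poly x) (hy : Poly y) :
    Poly (fun a => adj (f a) (x a) (y a)) := by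
  have hf' : Poly (fun z : β × (ℕ × ℕ) => f z.1) := hf.comp (Poly.fst Poly.id)
  have hx' : Poly (fun z : β × (ℕ × ℕ) => x z.1) := hx.comp (Poly.fst Poly.id)
  have hy' : Poly (fun z : β × (ℕ × ℕ) => y z.1) := hy.comp (Poly.fst Poly.id)
  have he1 : Poly (fun z : β × (ℕ × ℕ) => z.2.1 + 1) := Poly.succ (Poly.fst (Poly.snd Poly.id))
  have he2 : Poly (fun z : β × (ℕ × ℕ) => z.2.2 + 1) := Poly.succ (Poly.snd (Poly.snd Poly.id))
  have h1 : Poly (fun z : β × (ℕ × ℕ) => !(decide (z.2 ∈ greedy (f z.1).2)) &&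
    ((decide (z.2.1 + 1 = x z.1) && decide (z.2.2 + 1 = y z.1)) ||
      (decide (z.2.1 + 1 = y z.1) && decide (z.2.2 + 1 = x z.1)))) :=
    Poly.and (Poly.not (poly_mem2 (Poly.snd Poly.id) (poly_greedy (Poly.snd hf'))))
      (Poly.or (Poly.and (Poly.decide_eq he1 hx') (Poly.decide_eq he2 hy'))
        (Poly.and (Poly.decide_eq he1 hy') (Poly.decide_eq he2 hx')))
  exact Poly.any (l := fun a => (f a).2) (p := fun a e => !(decide (e ∈ greedy (f a).2)) &&
    ((decide (e.1 + 1 = x a) && decide (e.2 + 1 = y a)) ||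
      (decide (e.1 + 1 = y a) && decide (e.2 + 1 = x a)))) (Poly.snd hf) h1

theorem poly_reps {f : β → GInst} (hf : Poly f) : Poly (fun a => reps (f a)) := by
  have h1 : Poly (fun x : β × ℕ => [6 * x.2, 6 * x.2 + 3]) := by
    have h2 : Poly (fun x : β × ℕ => 6 * x.2) := Poly.mul (NPC.Poly.const 6) (Poly.snd Poly.id)
    exact Poly.cons h2 (Poly.cons (Poly.add h2 (NPC.Poly.const 3)) (NPC.Poly.const []))
  exact Poly.flatMap (l := fun a => List.range (gads (f a)).length)
    (F := fun _ g => [6 * g, 6 * g + 3]) (upoly_G hf).range h1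

theorem poly_coup {f : β → GInst} {p : β → ℕ} (hf : Poly f) (hp : Poly p) :
    Poly (fun a => coup (f a) (p a)) := by
  have h1 : Poly (fun z : β × ℕ => adj (f z.1) (vert (f z.1) (p z.1)) (vert (f z.1) z.2)) :=
    poly_adj (hf.comp (Poly.fst Poly.id))
      (poly_vert (hf.comp (Poly.fst Poly.id)) (hp.comp (Poly.fst Poly.id)))
      (poly_vert (hf.comp (Poly.fst Poly.id)) (Poly.snd Poly.id))
  have h2 : Poly (fun a => (reps (f a)).filter
      (fun q => adj (f a) (vert (f a) (p a)) (vert (f a) q))) :=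
    Poly.filter (l := fun a => reps (f a))
      (p := fun a q => adj (f a) (vert (f a) (p a)) (vert (f a) q)) (poly_reps hf) h1
  exact Poly.ite (Poly.decide_eq (Poly.mod hp (NPC.Poly.const 3)) (NPC.Poly.const 0)) h2
    (NPC.Poly.const [])

theorem poly_lst {f : β → GInst} {p : β → ℕ} (hf : Poly f) (hp : Poly p) :
    Poly (fun a => lst (f a) (p a)) :=
  Poly.cons (poly_X hp) (Poly.cons (poly_Y hp) (Poly.append (poly_coup hf hp)
    (Poly.cons (poly_Z hp) (NPC.Poly.const []))))

theorem poly_forb {f : β → GInst} (hf : Poly f) : Poly (fun a => forb (f a)) := by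
  have h6 : Poly (fun x : β × ℕ => 6 * x.2) := Poly.mul (NPC.Poly.const 6) (Poly.snd Poly.id)
  have hr : Poly (fun a => List.range (gads (f a)).length) := (upoly_G hf).range
  have h1 : Poly (fun a => (List.range (gads (f a)).length).map (fun g => (6 * g, 6 * g + 4))) :=
    NPC.Poly.map (l := fun a => List.range (gads (f a)).length)
      (F := fun _ g => (6 * g, 6 * g + 4)) hr (Poly.pair h6 (Poly.add h6 (NPC.Poly.const 4)))
  have h2 : Poly (fun x : β × ℕ => decide (((gads (f x.1)).getD x.2 (0, 0)).2 = 0)) :=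
    Poly.decide_eq (Poly.snd (poly_getgad (hf.comp (Poly.fst Poly.id)) (Poly.snd Poly.id)))
      (NPC.Poly.const 0)
  have h3 : Poly (fun a => (List.range (gads (f a)).length).filter
      (fun g => decide (((gads (f a)).getD g (0, 0)).2 = 0))) :=
    Poly.filter (l := fun a => List.range (gads (f a)).length)
      (p := fun a g => decide (((gads (f a)).getD g (0, 0)).2 = 0)) hr h2
  have h4 : Poly (fun a => ((List.range (gads (f a)).length).filter
      (fun g => decide (((gads (f a)).getD g (0, 0)).2 = 0))).map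
        (fun g => (6 * g, 6 * g + 3))) :=
    NPC.Poly.map (l := fun a => (List.range (gads (f a)).length).filter
      (fun g => decide (((gads (f a)).getD g (0, 0)).2 = 0)))
      (F := fun _ g => (6 * g, 6 * g + 3)) h3 (Poly.pair h6 (Poly.add h6 (NPC.Poly.const 3)))
  exact Poly.append h1 h4

theorem poly_inst {f : β → GInst} (hf : Poly f) : Poly (fun a => inst (f a)) := by
  have h1 : Poly (fun a => (List.range (6 * (gads (f a)).length)).map (lst (f a))) :=
    NPC.Poly.map (l := fun a => List.range (6 * (gads (f a)).length))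
      (F := fun a p => lst (f a) p) (UPoly.mul (UPoly.const 6) (upoly_G hf)).range
      (poly_lst (hf.comp (Poly.fst Poly.id)) (Poly.snd Poly.id))
  have h2 : Poly (fun a => 6 * (gads (f a)).length) :=
    (UPoly.mul (UPoly.const 6) (upoly_G hf)).toPoly
  have h3 : Poly (fun a => 6 * (gads (f a)).length + 1) := Poly.succ h2
  have h4 : Poly (fun a => [[6 * (gads (f a)).length + 1], [6 * (gads (f a)).length]]) :=
    Poly.cons (Poly.cons h3 (NPC.Poly.const [])) (Poly.cons (Poly.cons h2 (NPC.Poly.const []))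
      (NPC.Poly.const []))
  exact Poly.pair (Poly.append h1 h4) (Poly.pair (poly_forb hf)
    (Poly.cons (Poly.pair h2 h3) (NPC.Poly.const [])))

theorem poly_inS {o : β → List (ℕ × ℕ)} {p : β → ℕ} (ho : Poly o) (hp : Poly p) :
    Poly (fun a => inS (o a) (p a)) :=
  Poly.or (Poly.or (poly_mem2 (Poly.pair hp (poly_X hp)) ho)
      (poly_mem2 (Poly.pair (poly_X hp) hp) ho))
    (Poly.or (poly_mem2 (Poly.pair hp (poly_Y hp)) ho)
      (poly_mem2 (Poly.pair (poly_Y hp) hp) ho))

theorem poly_cov {f : β → GInst} {o : β → List (ℕ × ℕ)} (hf : Poly f) (ho : Poly o) :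
    Poly (fun a => cov (f a) (o a)) := by
  have h1 : Poly (fun x : (β × ℕ) × ℕ =>
      decide (vert (f x.1.1) x.2 = x.1.2 + 1) && inS (o x.1.1) x.2) :=
    Poly.and (Poly.decide_eq (poly_vert (hf.comp (Poly.fst (Poly.fst Poly.id)))
        (Poly.snd Poly.id)) (Poly.succ (Poly.snd (Poly.fst Poly.id))))
      (poly_inS (ho.comp (Poly.fst (Poly.fst Poly.id))) (Poly.snd Poly.id))
  have h2 : Poly (fun x : β × ℕ => (reps (f x.1)).any
      (fun p => decide (vert (f x.1) p = x.2 + 1) && inS (o x.1) p)) :=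
    Poly.any (l := fun x : β × ℕ => reps (f x.1))
      (p := fun x p => decide (vert (f x.1) p = x.2 + 1) && inS (o x.1) p)
      (poly_reps (hf.comp (Poly.fst Poly.id))) h1
  exact Poly.filter (l := fun a => (f a).1) (p := fun a v => (reps (f a)).any
      (fun p => decide (vert (f a) p = v + 1) && inS (o a) p)) (Poly.fst hf) h2

theorem poly_vc {A : Inst → List (ℕ × ℕ)} (hA : Poly A) : Poly (vc A) := by
  have h1 : Poly (fun J : GInst => cov J (A (inst J))) :=
    poly_cov Poly.id (hA.comp (poly_inst Poly.id))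
  have h2 : Poly (fun J : GInst => flat (greedy J.2)) :=
    poly_flat (poly_greedy (Poly.snd Poly.id))
  exact Poly.ite (Poly.decide_le (Poly.length h1) (Poly.length h2)) h1 h2

/-- A polynomial-time function is computed by a program. -/
theorem poly_of_polyTimeFun {α γ : Type} [TEnc α] [TEnc γ] {A : α → γ} (h : PolyTimeFun A) :
    Poly A := by
  obtain ⟨F, hF, hFA⟩ := h
  obtain ⟨c, p, hc⟩ := H642R2.TMSim.polyTime_toPC hF
  refine ⟨c, p, fun a => ?_⟩
  have := hc (bits a)
  rw [hFA a] at this
  exact this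

theorem polyTimeFun_of_poly {α γ : Type} [TEnc α] [TDec α] [TEnc γ] {A : α → γ} (h : Poly A) :
    PolyTimeFun A := by
  have h1 : Poly (fun x : List Bool => (unbits α x).map A) :=
    Poly.optMap (f := fun _ I => A I) poly_unbits (h.comp (Poly.snd Poly.id))
  refine ⟨_, polyTime_opt h1, fun I => ?_⟩
  rw [unbits_bits]
  rfl

end PolyTime

/-- **Theorem.** For every `ρ ≥ 1`, a polynomial-time `ρ`-approximation for the minimum number of
restricted-edge violations, on the solvable instances with `0 < |Q| < |M|`, yields a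
polynomial-time `2 ρ / (ρ + 1)`-approximation for Vertex Cover. In particular a `2`-approximation
on this class yields a `4 / 3`-approximation for Vertex Cover; and if Vertex Cover has no
polynomial-time `(2 - ε)`-approximation for any `ε > 0`, then the class has no polynomial-time
constant-factor approximation. -/
theorem result :
    (∀ ρ : ℝ, 1 ≤ ρ → HasApprox ρ → VCApprox (2 * ρ / (ρ + 1))) ∧
    (HasApprox 2 → VCApprox (4 / 3)) ∧
    ((∀ ε : ℝ, 0 < ε → ¬ VCApprox (2 - ε)) → ∀ ρ : ℝ, 1 ≤ ρ → ¬ HasApprox ρ) := by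
  have h1 : ∀ ρ : ℝ, 1 ≤ ρ → HasApprox ρ → VCApprox (2 * ρ / (ρ + 1)) := by
    rintro ρ hρ ⟨A, hA, hA2⟩
    exact ⟨vc A, polyTimeFun_of_poly (poly_vc (poly_of_polyTimeFun hA)),
      fun J hJ => vc_correct hρ hA2 hJ⟩
  refine ⟨h1, fun h => ?_, fun h ρ hρ h2 => ?_⟩
  · have := h1 2 (by norm_num) h
    norm_num at this
    exact this
  · refine h (2 - 2 * ρ / (ρ + 1)) ?_ ?_
    · rw [sub_pos, div_lt_iff₀ (by linarith)]
      linarith
    · rw [sub_sub_cancel]
      exact h1 ρ hρ h2

end Pool.Agent.Results.MP_f16758_lc.NoTwoApprox
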